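import Pool.Agent.U723.OC.Stm

/-!
Project OC, package RING: concentric rings of circles.

Let `k ≥ 5`, `θ = π / k` and let `x < 1` be the root of `(1 + x²) cos 2θ = 2 x cos θ`.  All the
disjointness conditions follow from `cos 2θ > 0` and `T (1 + x²) < 1 - x²` with `T = √2 sin θ`.
-/

set_option autoImplicit false

open Metric Set

namespace Pool.Agent.U810.OC.RING

open Pool.Agent.U723.OC

/-- the point with given polar coordinates -/
noncomputable def pt (r α : ℝ) : ℂ := ⟨r * Real.cos α, r * Real.sin α⟩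

lemma dist_pt (r s α β : ℝ) :
    dist (pt r α) (pt s β) ^ 2 = r ^ 2 + s ^ 2 - 2 * r * s * Real.cos (β - α) := by
  rw [Complex.dist_eq_re_im, Real.sq_sqrt (by positivity), Real.cos_sub]
  simp only [pt]
  linear_combination r ^ 2 * (Real.sin_sq_add_cos_sq α) + s ^ 2 * (Real.sin_sq_add_cos_sq β)

lemma dist_zero_pt (r α : ℝ) (hr : 0 ≤ r) : dist (0 : ℂ) (pt r α) = r := by
  have h : dist (0 : ℂ) (pt r α) ^ 2 = r ^ 2 := by
    rw [Complex.dist_eq_re_im, Real.sq_sqrt (by positivity)]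
    simp only [pt, Complex.zero_re, Complex.zero_im]
    linear_combination r ^ 2 * (Real.sin_sq_add_cos_sq α)
  exact (pow_left_inj₀ dist_nonneg hr two_ne_zero).1 h

lemma disj_out {A B : Circ} (h : A.r + B.r < dist A.c B.c) : Disjoint A.pts B.pts := by
  rw [Set.disjoint_left]
  intro z hA hB
  have hA' : dist z A.c = A.r := hA
  have hB' : dist z B.c = B.r := hB
  have h1 := dist_triangle_left A.c B.c z
  rw [hA', hB'] at h1
  linarith

lemma disj_in {A B : Circ} (h : dist A.c B.c + B.r < A.r) : Disjoint A.pts B.pts := by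
  rw [Set.disjoint_left]
  intro z hA hB
  have hA' : dist z A.c = A.r := hA
  have hB' : dist z B.c = B.r := hB
  have h1 := dist_triangle_right z A.c B.c
  rw [hA', hB'] at h1
  linarith

lemma orth_symm {A B : Circ} (h : Orth A B) : Orth B A := by
  unfold Orth at h ⊢
  rw [dist_comm, h, add_comm]

lemma cos_abs_int (D : ℤ) (θ : ℝ) (hθ : 0 < θ) : Real.cos (D * θ) = Real.cos ((|D| : ℤ) * θ) := by
  rw [← Real.cos_abs (D * θ), abs_mul, abs_of_pos hθ]
  push_cast
  rfl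

lemma cos_flip (k : ℕ) (hk : 0 < k) (D : ℤ) :
    Real.cos (D * (Real.pi / k)) = Real.cos (((2 * k - D : ℤ) : ℝ) * (Real.pi / k)) := by
  have hk' : (k : ℝ) ≠ 0 := by positivity
  have e : ((2 * k - D : ℤ) : ℝ) * (Real.pi / k) = 2 * Real.pi - D * (Real.pi / k) := by
    push_cast
    field_simp
  rw [e, Real.cos_two_pi_sub]

lemma cos_le (k : ℕ) (hk : 0 < k) (lo : ℕ) (D : ℤ) (h1 : (lo : ℤ) ≤ |D|)
    (h2 : |D| ≤ 2 * k - lo) (_h3 : lo ≤ k) :
    Real.cos (D * (Real.pi / k)) ≤ Real.cos (lo * (Real.pi / k)) := by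
  have hk' : (0 : ℝ) < k := by exact_mod_cast hk
  have hθ : 0 < Real.pi / k := by positivity
  have key : ∀ E : ℤ, (lo : ℤ) ≤ E → E ≤ k →
      Real.cos (E * (Real.pi / k)) ≤ Real.cos (lo * (Real.pi / k)) := by
    intro E hE1 hE2
    have h1' : (lo : ℝ) ≤ E := by exact_mod_cast hE1
    have h2' : (E : ℝ) ≤ k := by exact_mod_cast hE2
    apply Real.cos_le_cos_of_nonneg_of_le_pi
    · positivity
    · calc (E : ℝ) * (Real.pi / k) ≤ k * (Real.pi / k) := by gcongr
        _ = Real.pi := by field_simp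
    · gcongr
  rw [cos_abs_int D _ hθ]
  rcases le_total |D| (k : ℤ) with h | h
  · exact key _ h1 h
  · rw [cos_flip k hk]
    exact key _ (by omega) (by omega)

lemma cos_eq (k : ℕ) (hk : 0 < k) (lo : ℕ) (D : ℤ) (h : |D| = lo ∨ |D| = 2 * k - lo) :
    Real.cos (D * (Real.pi / k)) = Real.cos (lo * (Real.pi / k)) := by
  have hk' : (0 : ℝ) < k := by exact_mod_cast hk
  have hθ : 0 < Real.pi / k := by positivity
  rw [cos_abs_int D _ hθ]
  rcases h with h | h
  · rw [h]; push_cast; rfl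
  · rw [cos_flip k hk, h]
    congr 2
    push_cast
    ring

/-- the parameters -/
structure Pa where
  /-- number of circles of a ring -/
  k : ℕ
  hk : 5 ≤ k
  /-- ratio of the rings -/
  x : ℝ
  x0 : 0 < x
  x1 : x < 1
  hx : (1 + x ^ 2) * Real.cos (2 * (Real.pi / k)) = 2 * x * Real.cos (Real.pi / k)

lemma th_pos (k : ℕ) (hk : 5 ≤ k) : 0 < Real.pi / k := by
  have : (0 : ℝ) < k := by
    have : 0 < k := by omega
    exact_mod_cast this
  positivity

lemma th_lt (k : ℕ) (hk : 5 ≤ k) : Real.pi / k < Real.pi / 4 := by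
  have h5 : (5 : ℝ) ≤ k := by exact_mod_cast hk
  have := Real.pi_pos
  apply div_lt_div_of_pos_left <;> linarith

lemma c2_pos (k : ℕ) (hk : 5 ≤ k) : 0 < Real.cos (2 * (Real.pi / k)) := by
  have h1 := th_pos k hk
  have h2 := th_lt k hk
  apply Real.cos_pos_of_mem_Ioo
  constructor <;> linarith

lemma s_pos (k : ℕ) (hk : 5 ≤ k) : 0 < Real.sin (Real.pi / k) := by
  have h1 := th_pos k hk
  have h2 := th_lt k hk
  apply Real.sin_pos_of_pos_of_lt_pi h1
  linarith [Real.pi_pos]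

lemma c_pos (k : ℕ) (hk : 5 ≤ k) : 0 < Real.cos (Real.pi / k) := by
  have h1 := th_pos k hk
  have h2 := th_lt k hk
  apply Real.cos_pos_of_mem_Ioo
  constructor <;> linarith [Real.pi_pos]

lemma exists_Pa (k : ℕ) (hk : 5 ≤ k) : ∃ p : Pa, p.k = k := by
  have h2 := c2_pos k hk
  have hs := s_pos k hk
  have hc := c_pos k hk
  set c := Real.cos (Real.pi / k) with hcdef
  set c2 := Real.cos (2 * (Real.pi / k)) with hc2def
  have e2 : c2 = 2 * c ^ 2 - 1 := Real.cos_two_mul _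
  have hs2 := Real.sin_sq_add_cos_sq (Real.pi / k)
  rw [← hcdef] at hs2
  have hc1 : c2 < c := by nlinarith [sq_nonneg (Real.sin (Real.pi / k))]
  set t := c / c2 with htdef
  have ht : 1 < t := (one_lt_div h2).2 hc1
  have hw : 0 ≤ t ^ 2 - 1 := by nlinarith
  set w := Real.sqrt (t ^ 2 - 1) with hwdef
  have hw2 : w ^ 2 = t ^ 2 - 1 := Real.sq_sqrt hw
  have hw0 : 0 ≤ w := Real.sqrt_nonneg _
  have hwt : w < t := by nlinarith
  have hwt2 : t - 1 < w := by
    by_contra h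
    push Not at h
    nlinarith
  refine ⟨⟨k, hk, t - w, by linarith, by linarith, ?_⟩, rfl⟩
  rw [← hcdef, ← hc2def]
  have ec : c = t * c2 := by rw [htdef]; field_simp
  rw [ec]
  linear_combination c2 * hw2

namespace Pa

variable (p : Pa)

/-- the angle -/
noncomputable def θ : ℝ := Real.pi / p.k

/-- the factor of the radius -/
noncomputable def T : ℝ := √2 * Real.sin p.θ

/-- the factor of the radius of the hubs -/
noncomputable def h : ℝ := √(Real.cos (2 * p.θ))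

lemma s0 : 0 < Real.sin p.θ := s_pos p.k p.hk
lemma c0 : 0 < Real.cos p.θ := c_pos p.k p.hk
lemma c20 : 0 < Real.cos (2 * p.θ) := c2_pos p.k p.hk
lemma k0 : 0 < p.k := by have := p.hk; omega
lemma eq_x : (1 + p.x ^ 2) * Real.cos (2 * p.θ) = 2 * p.x * Real.cos p.θ := p.hx

lemma T0 : 0 < p.T := by
  have := p.s0
  unfold T
  positivity

lemma T2 : p.T ^ 2 = 2 * Real.sin p.θ ^ 2 := by
  unfold T
  rw [mul_pow, Real.sq_sqrt (by norm_num)]

lemma h0 : 0 < p.h := Real.sqrt_pos.2 p.c20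

lemma cc : Real.cos (2 * p.θ) = 1 - p.T ^ 2 := by
  rw [T2, Real.cos_two_mul]
  linarith [Real.sin_sq_add_cos_sq p.θ]

lemma h2 : p.h ^ 2 = 1 - p.T ^ 2 := by
  unfold h
  rw [Real.sq_sqrt p.c20.le, cc]

/-- the key inequality -/
lemma key : p.T * (1 + p.x ^ 2) < 1 - p.x ^ 2 := by
  have hx0 := p.x0
  have hx1 := p.x1
  have hs := p.s0
  have hc := p.c0
  have hc2 := p.c20
  have hT := p.T0
  have hT2 := p.T2
  have hq := p.eq_x
  have hsc := Real.sin_sq_add_cos_sq p.θ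
  have e2 := Real.cos_two_mul p.θ
  have h1 : 0 < 1 - p.x ^ 2 := by nlinarith
  have e : Real.cos p.θ ^ 2 * ((1 - p.x ^ 2) ^ 2 - (p.T * (1 + p.x ^ 2)) ^ 2) =
      (1 + p.x ^ 2) ^ 2 * (Real.cos (2 * p.θ) * Real.sin p.θ ^ 2) := by
    rw [mul_pow, hT2]
    have hs2 : Real.sin p.θ ^ 2 = 1 - Real.cos p.θ ^ 2 := by linarith
    have hq2 : ((1 + p.x ^ 2) * Real.cos (2 * p.θ)) ^ 2 = (2 * p.x * Real.cos p.θ) ^ 2 := by
      rw [hq]
    rw [hs2]
    rw [e2] at hq2 ⊢
    linear_combination hq2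
  have h3 : 0 < Real.cos p.θ ^ 2 * ((1 - p.x ^ 2) ^ 2 - (p.T * (1 + p.x ^ 2)) ^ 2) := by
    rw [e]
    positivity
  have h4 : 0 < (1 - p.x ^ 2) ^ 2 - (p.T * (1 + p.x ^ 2)) ^ 2 :=
    (pos_iff_pos_of_mul_pos h3).1 (by positivity)
  exact lt_of_pow_lt_pow_left₀ 2 h1.le (by linarith)

lemma T1 : p.T < 1 := by
  have h1 := p.key
  have h2 := p.T0
  nlinarith [sq_nonneg p.x]

/-- `x² (1 + T) < 1 - T` -/
lemma key2 : p.x ^ 2 * (1 + p.T) < 1 - p.T := by linarith [p.key]

lemma key3 : p.x * (1 + p.T) < p.h := by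
  have h1 := p.key2
  have hT := p.T0
  have hx := p.x0
  refine lt_of_pow_lt_pow_left₀ 2 p.h0.le ?_
  rw [p.h2]
  nlinarith

lemma key4 : p.x * p.h + p.T < 1 := by
  have h1 := p.key2
  have hT := p.T0
  have hT1 := p.T1
  have hx := p.x0
  have h2 : p.x * p.h < 1 - p.T := by
    refine lt_of_pow_lt_pow_left₀ 2 (by linarith) ?_
    rw [mul_pow, p.h2]
    nlinarith
  linarith

/-- circle `a` of ring `j` -/
noncomputable def C (j a : ℕ) : Circ :=
  ⟨pt (p.x ^ j) ((2 * a + j) * p.θ), p.T * p.x ^ j, mul_pos p.T0 (pow_pos p.x0 j)⟩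

/-- the hub of ring `j` -/
noncomputable def H (j : ℕ) : Circ := ⟨0, p.h * p.x ^ j, mul_pos p.h0 (pow_pos p.x0 j)⟩

lemma dist_C (j a j' a' : ℕ) : dist (p.C j a).c (p.C j' a').c ^ 2 =
    (p.x ^ j) ^ 2 + (p.x ^ j') ^ 2 - 2 * p.x ^ j * p.x ^ j' *
      Real.cos (((2 * ((a' : ℤ) - a) + ((j' : ℤ) - j) : ℤ) : ℝ) * (Real.pi / p.k)) := by
  unfold C
  rw [dist_pt]
  congr 2
  push_cast
  unfold θ
  ring_nf

lemma same_orth (j a a' : ℕ) (h : a' = a + 1 ∨ (a = 0 ∧ a' + 1 = p.k)) :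
    Orth (p.C j a) (p.C j a') := by
  have hk := p.hk
  unfold Orth
  rw [dist_C, cos_eq p.k p.k0 2 _ (by
    rcases h with h | ⟨h, h'⟩
    · left; rw [h]; push_cast; rw [abs_eq (by norm_num)]; left; ring
    · right; rw [h]; rw [abs_eq (by omega)]; left; push_cast; omega)]
  have e : Real.cos (((2 : ℕ) : ℝ) * (Real.pi / p.k)) = 1 - p.T ^ 2 := by
    rw [← p.cc]; rfl
  rw [e]
  simp only [C]
  ring

lemma same_disj (j a a' : ℕ) (haa : a < a') (ha' : a' < p.k)
    (h : ¬ (a' = a + 1 ∨ (a = 0 ∧ a' + 1 = p.k))) :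
    Disjoint (p.C j a).pts (p.C j a').pts := by
  have hk := p.hk
  have hx := pow_pos p.x0 j
  have hT := p.T0
  apply disj_out
  refine lt_of_pow_lt_pow_left₀ 2 dist_nonneg ?_
  rw [dist_C]
  have h1 := cos_le p.k p.k0 4 (2 * ((a' : ℤ) - a) + ((j : ℤ) - j)) (by
    rw [abs_of_nonneg (by omega)]; omega) (by rw [abs_of_nonneg (by omega)]; omega) (by omega)
  have e : Real.cos (((4 : ℕ) : ℝ) * (Real.pi / p.k)) = 2 * (1 - p.T ^ 2) ^ 2 - 1 := by
    rw [← p.cc, ← Real.cos_two_mul]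
    congr 1
    unfold θ
    push_cast
    ring
  rw [e] at h1
  have hT2 : p.T ^ 2 < 1 := by have := p.cc; have := p.c20; linarith
  simp only [C]
  have h2 : 2 * p.T ^ 2 < 1 - Real.cos (((2 * ((a' : ℤ) - a) + ((j : ℤ) - j) : ℤ) : ℝ) *
      (Real.pi / p.k)) * 1 := by
    nlinarith [pow_pos hT 2]
  nlinarith [pow_pos hx 2]

lemma next_orth (j a a' : ℕ) (ha : a < p.k) (ha' : a' < p.k)
    (h : a' = a ∨ a = a' + 1 ∨ (a = 0 ∧ a' + 1 = p.k)) :
    Orth (p.C j a) (p.C (j + 1) a') := by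
  have hk := p.hk
  unfold Orth
  rw [dist_C, cos_eq p.k p.k0 1 _ (by
    rcases h with h | h | ⟨h, h'⟩
    · left; rw [abs_eq (by norm_num)]; left; push_cast; omega
    · left; rw [abs_eq (by norm_num)]; right; push_cast; omega
    · right; rw [abs_eq (by push_cast; omega)]; left; push_cast; omega)]
  have e : Real.cos (((1 : ℕ) : ℝ) * (Real.pi / p.k)) = Real.cos p.θ := by
    unfold θ; push_cast; rw [one_mul]
  rw [e]
  simp only [C]
  have h1 := p.eq_x
  rw [p.cc] at h1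
  rw [pow_succ]
  linear_combination (p.x ^ j) ^ 2 * h1

lemma next_disj (j a a' : ℕ) (ha : a < p.k) (ha' : a' < p.k)
    (h : ¬ (a' = a ∨ a = a' + 1 ∨ (a = 0 ∧ a' + 1 = p.k))) :
    Disjoint (p.C j a).pts (p.C (j + 1) a').pts := by
  have hk := p.hk
  have hx := pow_pos p.x0 j
  have hx0 := p.x0
  have hT := p.T0
  apply disj_out
  refine lt_of_pow_lt_pow_left₀ 2 dist_nonneg ?_
  rw [dist_C]
  have h1 := cos_le p.k p.k0 3 (2 * ((a' : ℤ) - a) + (((j + 1 : ℕ) : ℤ) - j)) (by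
    rcases le_total a a' with h' | h'
    · rw [abs_of_nonneg (by omega)]; omega
    · rw [abs_of_nonpos (by omega)]; omega) (by
    rcases le_total a a' with h' | h'
    · rw [abs_of_nonneg (by omega)]; omega
    · rw [abs_of_nonpos (by omega)]; omega) (by omega)
  have e : Real.cos (((3 : ℕ) : ℝ) * (Real.pi / p.k)) =
      Real.cos p.θ * (1 - 2 * p.T ^ 2) := by
    have e1 : (((3 : ℕ) : ℝ) * (Real.pi / p.k)) = 3 * p.θ := by unfold θ; push_cast; rfl
    rw [e1, Real.cos_three_mul, p.T2]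
    have := Real.sin_sq_add_cos_sq p.θ
    linear_combination (4 * Real.cos p.θ) * this
  rw [e] at h1
  have hT2 : p.T ^ 2 < 1 := by have := p.cc; have := p.c20; linarith
  have hc : 1 < 2 * Real.cos p.θ := by
    have h3 := Real.cos_two_mul p.θ
    have h4 := p.c20
    have h5 := p.c0
    nlinarith
  have hq := p.eq_x
  rw [p.cc] at hq
  simp only [C]
  set u := Real.cos (((2 * ((a' : ℤ) - a) + (((j + 1 : ℕ) : ℤ) - j) : ℤ) : ℝ) *
      (Real.pi / p.k)) with hu
  -- `1 + x² - 2 x u > T² (1 + x)²`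
  have h2 : p.T ^ 2 * (1 + p.x) ^ 2 < 1 + p.x ^ 2 - 2 * p.x * u := by
    have h3 : 2 * p.x * u ≤ 2 * p.x * (Real.cos p.θ * (1 - 2 * p.T ^ 2)) := by
      apply mul_le_mul_of_nonneg_left h1
      positivity
    have h4 : 0 < (1 - p.T ^ 2) := by linarith
    -- multiply by `1 - T²`
    have h5 : 0 < (1 - p.T ^ 2) * (1 + p.x ^ 2 - 2 * p.x * (Real.cos p.θ * (1 - 2 * p.T ^ 2)) -
        p.T ^ 2 * (1 + p.x) ^ 2) := by
      have e5 : (1 - p.T ^ 2) * (1 + p.x ^ 2 - 2 * p.x * (Real.cos p.θ * (1 - 2 * p.T ^ 2)) -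
        p.T ^ 2 * (1 + p.x) ^ 2) =
          2 * p.x * (p.T ^ 2 * ((1 - p.T ^ 2) * (2 * Real.cos p.θ - 1))) := by
        linear_combination (1 - p.T ^ 2) * hq
      rw [e5]
      have : 0 < 2 * Real.cos p.θ - 1 := by linarith
      positivity
    have h6 := (pos_iff_pos_of_mul_pos h5).1 h4
    linarith
  have h7 := mul_lt_mul_of_pos_left h2 (pow_pos hx 2)
  calc (p.T * p.x ^ j + p.T * p.x ^ (j + 1)) ^ 2 =
      (p.x ^ j) ^ 2 * (p.T ^ 2 * (1 + p.x) ^ 2) := by ring
    _ < (p.x ^ j) ^ 2 * (1 + p.x ^ 2 - 2 * p.x * u) := h7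
    _ = _ := by ring

lemma far_disj (j j' a a' : ℕ) (h : j + 2 ≤ j') : Disjoint (p.C j a).pts (p.C j' a').pts := by
  have hx := pow_pos p.x0 j
  have hx0 := p.x0
  have hT := p.T0
  have hT1 := p.T1
  apply disj_out
  have h1 : p.x ^ j - p.x ^ j' ≤ dist (p.C j a).c (p.C j' a').c := by
    have h2 := dist_triangle_right (0 : ℂ) (p.C j a).c (p.C j' a').c
    have h3 : dist (0 : ℂ) (p.C j a).c = p.x ^ j := dist_zero_pt _ _ (pow_nonneg hx0.le _)
    have h4 : dist (0 : ℂ) (p.C j' a').c = p.x ^ j' := dist_zero_pt _ _ (pow_nonneg hx0.le _)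
    have h5 := dist_triangle (0 : ℂ) (p.C j' a').c (p.C j a).c
    rw [h3, h4, dist_comm (p.C j' a').c] at h5
    linarith
  have h2 : p.x ^ j' ≤ p.x ^ j * p.x ^ 2 := by
    rw [← pow_add]
    exact pow_le_pow_of_le_one hx0.le p.x1.le h
  have h3 := p.key2
  refine lt_of_lt_of_le ?_ h1
  simp only [C]
  have h4 : (1 + p.T) * p.x ^ j' ≤ (1 + p.T) * (p.x ^ j * p.x ^ 2) :=
    mul_le_mul_of_nonneg_left h2 (by linarith)
  have h5 := mul_lt_mul_of_pos_left h3 hx
  nlinarith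

lemma hub_orth (j a : ℕ) : Orth (p.H j) (p.C j a) := by
  unfold Orth
  have h3 : dist (p.H j).c (p.C j a).c = p.x ^ j := dist_zero_pt _ _ (pow_nonneg p.x0.le _)
  rw [h3]
  simp only [H, C]
  rw [mul_pow, p.h2]
  ring

lemma hub_disj (j j' a : ℕ) (h : j ≠ j') : Disjoint (p.H j).pts (p.C j' a).pts := by
  have h3 : dist (p.H j).c (p.C j' a).c = p.x ^ j' := dist_zero_pt _ _ (pow_nonneg p.x0.le _)
  have hx0 := p.x0
  rcases lt_or_gt_of_ne h with h' | h'
  · apply disj_in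
    rw [h3]
    simp only [H, C]
    have h2 : p.x ^ j' ≤ p.x ^ j * p.x := by
      rw [← pow_succ]
      exact pow_le_pow_of_le_one hx0.le p.x1.le h'
    have h4 : (1 + p.T) * p.x ^ j' ≤ (1 + p.T) * (p.x ^ j * p.x) :=
      mul_le_mul_of_nonneg_left h2 (by linarith [p.T0])
    have h5 := mul_lt_mul_of_pos_left p.key3 (pow_pos hx0 j)
    nlinarith
  · apply disj_out
    rw [h3]
    simp only [H, C]
    have h2 : p.x ^ j ≤ p.x ^ j' * p.x := by
      rw [← pow_succ]
      exact pow_le_pow_of_le_one hx0.le p.x1.le h'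
    have h4 : p.h * p.x ^ j ≤ p.h * (p.x ^ j' * p.x) :=
      mul_le_mul_of_nonneg_left h2 p.h0.le
    have h5 := mul_lt_mul_of_pos_left p.key4 (pow_pos hx0 j')
    nlinarith

lemma hubs_disj (j j' : ℕ) (h : j < j') : Disjoint (p.H j).pts (p.H j').pts := by
  apply disj_in
  simp only [H, dist_self, zero_add]
  exact mul_lt_mul_of_pos_left (pow_lt_pow_right_of_lt_one₀ p.x0 p.x1 h) p.h0

/-- the circle with the index `(j, a)`: `a = k` stands for the hub of ring `j` -/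
noncomputable def D (q : ℕ × ℕ) : Circ := if q.2 < p.k then p.C q.1 q.2 else p.H q.1

/-- the indices of orthogonal circles -/
def rel (k : ℕ) (q q' : ℕ × ℕ) : Prop :=
  (q.1 = q'.1 ∧ q.2 < k ∧ q'.2 < k ∧ (q'.2 = q.2 + 1 ∨ (q.2 = 0 ∧ q'.2 + 1 = k))) ∨
  (q'.1 = q.1 + 1 ∧ q.2 < k ∧ q'.2 < k ∧ (q'.2 = q.2 ∨ q.2 = q'.2 + 1 ∨ (q.2 = 0 ∧ q'.2 + 1 = k))) ∨
  (q.1 = q'.1 ∧ q.2 = k ∧ q'.2 < k)

lemma rel_orth (q q' : ℕ × ℕ) (h : rel p.k q q') : Orth (p.D q) (p.D q') := by
  obtain ⟨j, a⟩ := q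
  obtain ⟨j', a'⟩ := q'
  rcases h with ⟨h1, h2, h3, h4⟩ | ⟨h1, h2, h3, h4⟩ | ⟨h1, h2, h3⟩
  · simp only at h1 h2 h3 h4
    simp only [D, h2, h3, if_true]
    rw [← h1]
    exact p.same_orth j a a' h4
  · simp only at h1 h2 h3 h4
    simp only [D, h2, h3, if_true]
    rw [h1]
    exact p.next_orth j a a' h2 h3 h4
  · simp only at h1 h2 h3
    simp only [D, h3, if_true]
    rw [if_neg (by omega), ← h1]
    exact p.hub_orth j a'

lemma arr_aux (q q' : ℕ × ℕ) (hq : q.2 ≤ p.k) (hq' : q'.2 ≤ p.k) (hne : q ≠ q') :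
    Orth (p.D q) (p.D q') ∨ Disjoint (p.D q).pts (p.D q').pts := by
  wlog hle : q.1 < q'.1 ∨ (q.1 = q'.1 ∧ q.2 < q'.2) generalizing q q' with H
  · have h2 : q'.1 < q.1 ∨ (q'.1 = q.1 ∧ q'.2 < q.2) := by
      by_contra hc
      apply hne
      apply Prod.ext <;> omega
    rcases H q' q hq' hq hne.symm h2 with h | h
    · exact Or.inl (orth_symm h)
    · exact Or.inr h.symm
  obtain ⟨j, a⟩ := q
  obtain ⟨j', a'⟩ := q'
  simp only at hq hq' hle
  rcases hle with hj | ⟨hj, ha⟩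
  · by_cases h1 : a < p.k
    · by_cases h2 : a' < p.k
      · by_cases h3 : j' = j + 1
        · by_cases h4 : a' = a ∨ a = a' + 1 ∨ (a = 0 ∧ a' + 1 = p.k)
          · exact Or.inl (p.rel_orth _ _ (Or.inr (Or.inl ⟨h3, h1, h2, h4⟩)))
          · right
            simp only [D, h1, h2, if_true]
            rw [h3]
            exact p.next_disj j a a' h1 h2 h4
        · right
          simp only [D, h1, h2, if_true]
          exact p.far_disj j j' a a' (by omega)
      · right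
        simp only [D, h1, h2, if_true, if_false]
        exact (p.hub_disj j' j a (by omega)).symm
    · right
      by_cases h2 : a' < p.k
      · simp only [D, h1, h2, if_true, if_false]
        exact p.hub_disj j j' a' (by omega)
      · simp only [D, h1, h2, if_false]
        exact p.hubs_disj j j' hj
  · subst hj
    have h1 : a < p.k := by omega
    by_cases h2 : a' < p.k
    · by_cases h3 : a' = a + 1 ∨ (a = 0 ∧ a' + 1 = p.k)
      · exact Or.inl (p.rel_orth _ _ (Or.inl ⟨rfl, h1, h2, h3⟩))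
      · right
        simp only [D, h1, h2, if_true]
        exact p.same_disj j a a' ha h2 h3
    · left
      exact orth_symm (p.rel_orth _ _ (Or.inr (Or.inr ⟨rfl, by simp only; omega, h1⟩)))

lemma pts_nonempty (A : Circ) : A.pts.Nonempty := NormedSpace.sphere_nonempty.2 A.pos.le

lemma D_inj (q q' : ℕ × ℕ) (hq : q.2 ≤ p.k) (hq' : q'.2 ≤ p.k) (h : p.D q = p.D q') : q = q' := by
  by_contra hne
  rcases p.arr_aux q q' hq hq' hne with h1 | h1
  · rw [h] at h1
    unfold Orth at h1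
    rw [dist_self] at h1
    have := (p.D q').pos
    nlinarith
  · rw [h, disjoint_self] at h1
    exact (pts_nonempty _).ne_empty h1

/-- the indices -/
def I (k m : ℕ) : Finset (ℕ × ℕ) := Finset.range m ×ˢ Finset.range (k + 1)

/-- successor modulo `k` -/
def nx (k a : ℕ) : ℕ := if a + 1 = k then 0 else a + 1

/-- a map to the pairs of related indices -/
def f (k : ℕ) : (ℕ × ℕ) × Fin 8 → (ℕ × ℕ) × (ℕ × ℕ)
  | ((j, a), 0) => ((j, a), (j, nx k a))
  | ((j, a), 1) => ((j, nx k a), (j, a))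
  | ((j, a), 2) => ((j, a), (j, k))
  | ((j, a), 3) => ((j, k), (j, a))
  | ((j, a), 4) => ((j, a), (j + 1, a))
  | ((j, a), 5) => ((j + 1, a), (j, a))
  | ((j, a), 6) => ((j, nx k a), (j + 1, a))
  | ((j, a), 7) => ((j + 1, a), (j, nx k a))

lemma nx_spec (k a : ℕ) (ha : a < k) :
    (a + 1 = k ∧ nx k a = 0) ∨ (a + 1 < k ∧ nx k a = a + 1) := by
  unfold nx
  by_cases h : a + 1 = k
  · left; exact ⟨h, if_pos h⟩
  · right; exact ⟨by omega, if_neg h⟩

lemma f_spec (k m j a : ℕ) (t : Fin 8) (hk : 5 ≤ k) (ha : a < k) (h1 : t.val < 4 → j < m)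
    (h2 : 4 ≤ t.val → j + 1 < m) :
    ((f k ((j, a), t)).1.1 < m ∧ (f k ((j, a), t)).1.2 ≤ k) ∧
      ((f k ((j, a), t)).2.1 < m ∧ (f k ((j, a), t)).2.2 ≤ k) ∧
      (rel k (f k ((j, a), t)).1 (f k ((j, a), t)).2 ∨
        rel k (f k ((j, a), t)).2 (f k ((j, a), t)).1) := by
  have hb := nx_spec k a ha
  fin_cases t <;> simp at h1 h2 <;> simp only [f, rel, true_and, true_or, and_true] <;>
    (generalize nx k a = b at *; omega)

lemma f_inj (k j a j' a' : ℕ) (t t' : Fin 8) (hk : 5 ≤ k) (ha : a < k) (ha' : a' < k)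
    (h : f k ((j, a), t) = f k ((j', a'), t')) : j = j' ∧ a = a' ∧ t = t' := by
  have hb := nx_spec k a ha
  have hb' := nx_spec k a' ha'
  fin_cases t <;> fin_cases t' <;> simp only [f, Prod.mk.injEq] at h <;>
    first
      | exact ⟨by omega, by omega, rfl⟩
      | (exfalso; omega)

end Pa

theorem t_RING : S_RING := by
  classical
  refine ⟨5, fun k hk m hm => ?_⟩
  obtain ⟨p, rfl⟩ := exists_Pa k hk
  have hk5 := p.hk
  have hinj : Set.InjOn p.D (Pa.I p.k m : Set (ℕ × ℕ)) := by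
    intro q hq q' hq' h
    rw [Finset.mem_coe, Pa.I, Finset.mem_product, Finset.mem_range, Finset.mem_range] at hq hq'
    exact p.D_inj q q' (by omega) (by omega) h
  refine ⟨(Pa.I p.k m).image p.D, ?_, ?_, ?_⟩
  · intro A hA B hB hAB
    rw [Finset.mem_image] at hA hB
    obtain ⟨q, hq, rfl⟩ := hA
    obtain ⟨q', hq', rfl⟩ := hB
    rw [Pa.I, Finset.mem_product, Finset.mem_range, Finset.mem_range] at hq hq'
    exact p.arr_aux q q' (by omega) (by omega) (fun h => hAB (by rw [h]))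
  · rw [Finset.card_image_of_injOn hinj, Pa.I, Finset.card_product, Finset.card_range,
      Finset.card_range]
  · -- the source of the injection
    set T : Finset ((ℕ × ℕ) × Fin 8) :=
      (Finset.range m ×ˢ Finset.range p.k) ×ˢ ({0, 1, 2, 3} : Finset (Fin 8)) ∪
      (Finset.range (m - 1) ×ˢ Finset.range p.k) ×ˢ ({4, 5, 6, 7} : Finset (Fin 8)) with hT
    have hTcard : T.card = m * p.k * 4 + (m - 1) * p.k * 4 := by
      rw [hT, Finset.card_union_of_disjoint]
      · rw [Finset.card_product, Finset.card_product, Finset.card_product, Finset.card_product,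
          Finset.card_range, Finset.card_range, Finset.card_range]
        rfl
      · rw [Finset.disjoint_left]
        rintro ⟨q, t⟩ h1 h2
        rw [Finset.mem_product] at h1 h2
        have h3 := h1.2
        have h4 := h2.2
        revert h3 h4
        fin_cases t <;> simp
    have hmem : ∀ (j a : ℕ) (t : Fin 8), ((j, a), t) ∈ (T : Set ((ℕ × ℕ) × Fin 8)) →
        a < p.k ∧ (t.val < 4 → j < m) ∧ (4 ≤ t.val → j + 1 < m) := by
      intro j a t h
      rw [Finset.mem_coe, hT, Finset.mem_union, Finset.mem_product, Finset.mem_product,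
        Finset.mem_product, Finset.mem_product, Finset.mem_range, Finset.mem_range,
        Finset.mem_range] at h
      revert h
      fin_cases t <;> simp <;> omega
    have hI : ∀ q : ℕ × ℕ, q.1 < m ∧ q.2 ≤ p.k → q ∈ Pa.I p.k m := by
      intro q hq
      rw [Pa.I, Finset.mem_product, Finset.mem_range, Finset.mem_range]
      omega
    have hle : T.card ≤ pairs ((Pa.I p.k m).image p.D) := by
      unfold pairs
      refine Finset.card_le_card_of_injOn (fun y => (p.D (Pa.f p.k y).1, p.D (Pa.f p.k y).2)) ?_ ?_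
      · rintro ⟨⟨j, a⟩, t⟩ hy
        obtain ⟨ha, h1, h2⟩ := hmem j a t hy
        obtain ⟨h3, h4, h5⟩ := Pa.f_spec p.k m j a t p.hk ha h1 h2
        rw [Finset.mem_coe, Finset.mem_filter, Finset.mem_product]
        refine ⟨⟨Finset.mem_image_of_mem _ (hI _ h3), Finset.mem_image_of_mem _ (hI _ h4)⟩, ?_⟩
        rcases h5 with h5 | h5
        · exact p.rel_orth _ _ h5
        · exact orth_symm (p.rel_orth _ _ h5)
      · rintro ⟨⟨j, a⟩, t⟩ hy ⟨⟨j', a'⟩, t'⟩ hy' h
        obtain ⟨ha, h1, h2⟩ := hmem j a t hy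
        obtain ⟨h3, h4, -⟩ := Pa.f_spec p.k m j a t p.hk ha h1 h2
        obtain ⟨ha', h1', h2'⟩ := hmem j' a' t' hy'
        obtain ⟨h3', h4', -⟩ := Pa.f_spec p.k m j' a' t' p.hk ha' h1' h2'
        simp only [Prod.mk.injEq] at h
        have e1 := p.D_inj _ _ h3.2 h3'.2 h.1
        have e2 := p.D_inj _ _ h4.2 h4'.2 h.2
        obtain ⟨e3, e4, e5⟩ := Pa.f_inj p.k j a j' a' t t' p.hk ha ha' (Prod.ext e1 e2)
        rw [e3, e4, e5]
    rw [hTcard] at hle
    obtain ⟨m', rfl⟩ : ∃ m', m = m' + 1 := ⟨m - 1, by omega⟩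
    simp only [Nat.add_sub_cancel] at hle
    nlinarith

end Pool.Agent.U810.OC.RING
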